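import Pool.Agent.H92.Wr.Core

set_option autoImplicit false

/-!
Elements of wreath products which are conjugate to proper powers are conjugate into the top group.
-/

namespace Pool.Agent.H92.Wr

universe u v w

variable {Q : Type w} [Group Q] {Ω : Type u} [MulAction Q Ω] {H : Type v} [Group H]

/-- the element with the value `a` at the points `q ^ i • y` for `i < j` -/
noncomputable def blk (q : Q) (y : Ω) (j : ℕ) (a : H) : FS Ω H := by
  classical
  exact ⟨fun x => if ∃ i < j, x = q ^ i • y then a else 1, by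
    have h1 : ((fun i : ℕ => q ^ i • y) '' {i | i < j}).Finite := (Set.finite_lt_nat j).image _
    refine h1.subset ?_
    intro x hx
    by_contra hcon
    apply hx
    refine if_neg ?_
    rintro ⟨i, hi, rfl⟩
    exact hcon ⟨i, hi, rfl⟩⟩

theorem blk_pos (q : Q) (y : Ω) (j : ℕ) (a : H) (x : Ω) (h : ∃ i < j, x = q ^ i • y) :
    (blk q y j a).1 x = a := by
  classical
  unfold blk
  exact if_pos h

theorem blk_neg (q : Q) (y : Ω) (j : ℕ) (a : H) (x : Ω) (h : ¬ ∃ i < j, x = q ^ i • y) :
    (blk q y j a).1 x = 1 := by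
  classical
  unfold blk
  exact if_neg h

theorem vl_inv (g : Wrp Q Ω H) (x : Ω) : vl g⁻¹ x = (vl g (g.right • x))⁻¹ := by
  have h1 := vl_mul g g⁻¹ (g.right • x)
  rw [mul_inv_cancel, vl_one, inv_smul_smul] at h1
  exact (inv_eq_of_mul_eq_one_right h1.symm).symm

theorem vl_conj_inl (f : FS Ω H) (g : Wrp Q Ω H) (x : Ω) :
    vl (SemidirectProduct.inl f * g * (SemidirectProduct.inl f)⁻¹) x =
      f.1 x * vl g x * (f.1 (g.right⁻¹ • x))⁻¹ := by
  rw [vl_mul, vl_mul, vl_inv]
  have e1 : (SemidirectProduct.inl f : Wrp Q Ω H).right = 1 := rfl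
  have e2 : (SemidirectProduct.inl f * g : Wrp Q Ω H).right = g.right := by
    rw [SemidirectProduct.mul_right, e1, one_mul]
  rw [e1, e2, inv_one, one_smul, one_smul]
  rfl

theorem normalize_step (g : Wrp Q Ω H) (y : Ω) (j : ℕ) (hj : 0 < j)
    (h1 : vl g (g.right ^ j • y) ≠ 1) (h2 : g.right ^ j • y ≠ y)
    (hmin : ∀ i, 0 < i → i < j → ¬ (vl g (g.right ^ i • y) ≠ 1 ∧ g.right ^ i • y ≠ y)) (x : Ω)
    (hx : vl (SemidirectProduct.inl (blk g.right y j (vl g y)⁻¹) * g *
      (SemidirectProduct.inl (blk g.right y j (vl g y)⁻¹))⁻¹) x ≠ 1) :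
    vl g x ≠ 1 ∧ x ≠ y := by
  have hno : ∀ p, 0 < p → p ≤ j → g.right ^ p • y ≠ y := by
    intro p hp hpj hpy
    rcases Nat.lt_or_ge p j with h3 | h3
    · have h4 : g.right ^ j • y = g.right ^ (j - p) • y := by
        have h5 : g.right ^ j = g.right ^ (j - p) * g.right ^ p := by
          rw [← pow_add]; congr 1; omega
        rw [h5, mul_smul, hpy]
      refine hmin (j - p) (by omega) (by omega) ⟨?_, ?_⟩
      · rw [← h4]; exact h1
      · rw [← h4]; exact h2
    · have h4 : p = j := le_antisymm hpj h3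
      rw [h4] at hpy
      exact h2 hpy
  have hback : ∀ z : Ω, ∀ i : ℕ, g.right⁻¹ • z = g.right ^ i • y ↔ z = g.right ^ (i + 1) • y := by
    intro z i
    rw [inv_smul_eq_iff, pow_succ', mul_smul]
  rw [vl_conj_inl] at hx
  constructor
  · intro h3
    apply hx
    rw [h3, mul_one]
    by_cases h4 : ∃ i < j, x = g.right ^ i • y
    · rw [blk_pos _ _ _ _ _ h4]
      by_cases h5 : ∃ i < j, g.right⁻¹ • x = g.right ^ i • y
      · rw [blk_pos _ _ _ _ _ h5, mul_inv_cancel]
      · obtain ⟨i, hi, hix⟩ := h4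
        rcases Nat.eq_zero_or_pos i with h6 | h6
        · rw [h6, pow_zero, one_smul] at hix
          rw [blk_neg _ _ _ _ _ h5, ← hix, h3, inv_one, one_mul]
        · exfalso
          apply h5
          refine ⟨i - 1, by omega, ?_⟩
          rw [hback]
          have h7 : i - 1 + 1 = i := by omega
          rw [h7]
          exact hix
    · rw [blk_neg _ _ _ _ _ h4, blk_neg, inv_one, one_mul]
      rintro ⟨i, hi, hix⟩
      rw [hback] at hix
      rcases Nat.lt_or_ge (i + 1) j with h6 | h6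
      · exact h4 ⟨i + 1, h6, hix⟩
      · have h7 : i + 1 = j := by omega
        rw [h7] at hix
        rw [← hix] at h1
        exact h1 h3
  · rintro rfl
    apply hx
    rw [blk_pos _ _ _ _ _ ⟨0, hj, by rw [pow_zero, one_smul]⟩, inv_mul_cancel, one_mul, blk_neg,
      inv_one]
    rintro ⟨i, hi, hix⟩
    rw [hback] at hix
    exact hno (i + 1) (by omega) (by omega) hix.symm

theorem normalize_aux (N : ℕ) : ∀ g : Wrp Q Ω H, (vl_fin g).toFinset.card ≤ N →
    ∃ w : Wrp Q Ω H, w.right = 1 ∧ Nrm (w * g * w⁻¹) := by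
  classical
  induction N with
  | zero =>
    intro g hg
    refine ⟨1, rfl, ?_⟩
    rw [one_mul, inv_one, mul_one]
    intro y z hy
    exfalso
    have h1 : y ∈ (vl_fin g).toFinset := (Set.Finite.mem_toFinset _).2 hy
    have h2 : (vl_fin g).toFinset = ∅ := Finset.card_eq_zero.1 (by omega)
    rw [h2] at h1
    exact absurd h1 (Finset.notMem_empty _)
  | succ N ih =>
    intro g hg
    by_cases hn : Nrm g
    · refine ⟨1, rfl, ?_⟩
      rwa [one_mul, inv_one, mul_one]
    · obtain ⟨y, hy, hex⟩ : ∃ y, vl g y ≠ 1 ∧ ∃ j : ℕ, 0 < j ∧ vl g (g.right ^ j • y) ≠ 1 ∧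
          g.right ^ j • y ≠ y := by
        unfold Nrm at hn
        push Not at hn
        obtain ⟨y, z, hy, hz, k, hk, hne⟩ := hn
        rcases lt_trichotomy k 0 with h1 | h1 | h1
        · refine ⟨z, hz, (-k).toNat, by omega, ?_⟩
          have h2 : g.right ^ (-k).toNat • z = y := by
            rw [← zpow_natCast, Int.toNat_of_nonneg (by omega), hk, zpow_neg, inv_smul_smul]
          rw [h2]
          exact ⟨hy, fun h3 => hne h3.symm⟩
        · exfalso
          rw [h1, zpow_zero, one_smul] at hk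
          exact hne hk
        · refine ⟨y, hy, k.toNat, by omega, ?_⟩
          have h2 : g.right ^ k.toNat • y = z := by
            rw [← zpow_natCast, Int.toNat_of_nonneg (by omega), hk]
          rw [h2]
          exact ⟨hz, hne⟩
      obtain ⟨hj0, hj1, hj2⟩ := Nat.find_spec hex
      have hmin : ∀ i, 0 < i → i < Nat.find hex →
          ¬ (vl g (g.right ^ i • y) ≠ 1 ∧ g.right ^ i • y ≠ y) :=
        fun i hi hij hcon => Nat.find_min hex hij ⟨hi, hcon⟩
      have hstep := normalize_step g y (Nat.find hex) hj0 hj1 hj2 hmin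
      obtain ⟨v, hv⟩ : ∃ v : Wrp Q Ω H, v = SemidirectProduct.inl
        (blk g.right y (Nat.find hex) (vl g y)⁻¹) := ⟨_, rfl⟩
      rw [← hv] at hstep
      have hlt : (vl_fin (v * g * v⁻¹)).toFinset.card < (vl_fin g).toFinset.card := by
        apply Finset.card_lt_card
        rw [Finset.ssubset_iff_of_subset]
        · refine ⟨y, (Set.Finite.mem_toFinset _).2 hy, ?_⟩
          rw [Set.Finite.mem_toFinset]
          intro h3
          exact (hstep y h3).2 rfl
        · intro x hx
          rw [Set.Finite.mem_toFinset] at hx ⊢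
          exact (hstep x hx).1
      obtain ⟨w, hw1, hw2⟩ := ih (v * g * v⁻¹) (by omega)
      refine ⟨w * v, ?_, ?_⟩
      · rw [SemidirectProduct.mul_right, hw1, one_mul, hv]
        rfl
      · have h3 : w * v * g * (w * v)⁻¹ = w * (v * g * v⁻¹) * w⁻¹ := by group
        rw [h3]
        exact hw2

theorem normalize (g : Wrp Q Ω H) : ∃ w : Wrp Q Ω H, w.right = 1 ∧ Nrm (w * g * w⁻¹) :=
  normalize_aux _ g le_rfl

/-- elements which are conjugate to proper powers are conjugate into the top group -/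
theorem conj_inr (g : Wrp Q Ω H) (m : ℕ) (hm : 2 ≤ m) (hg : IsConj g (g ^ m))
    (hp : ∀ g' : Wrp Q Ω H, IsConj g g' → g'.right = g.right → ∀ (x : Ω) (k : ℕ), 0 < k →
      g'.right ^ k • x = x → vl (g' ^ k) x = 1) :
    IsConj g (SemidirectProduct.inr g.right) := by
  obtain ⟨t, ht⟩ := isConj_iff.1 hg
  obtain ⟨w, hw1, hw2⟩ := normalize g
  obtain ⟨g', hg'⟩ : ∃ g', g' = w * g * w⁻¹ := ⟨_, rfl⟩
  rw [← hg'] at hw2
  have hr : g'.right = g.right := by
    rw [hg', SemidirectProduct.mul_right, SemidirectProduct.mul_right, SemidirectProduct.inv_right,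
      hw1, one_mul, inv_one, mul_one]
  have ht' : (w * t * w⁻¹) * g' * (w * t * w⁻¹)⁻¹ = g' ^ m := by
    rw [hg', conj_pow, ← ht]
    group
  have hv : ∀ x, vl g' x = 1 := by
    intro x
    by_contra hx
    have h1 := nrm_per hm ht' hw2 x hx
    unfold Np at h1
    push Not at h1
    obtain ⟨k, hk, hk0⟩ := h1
    have h2 : ∃ j : ℕ, 0 < j ∧ g'.right ^ j • x = x := by
      refine ⟨k.natAbs, Int.natAbs_pos.2 hk0, ?_⟩
      rcases Int.natAbs_eq k with h3 | h3
      · rw [← zpow_natCast, ← h3]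
        exact hk
      · have h4 : ((k.natAbs : ℕ) : ℤ) = -k := by omega
        rw [← zpow_natCast, h4, zpow_neg, inv_smul_eq_iff]
        exact hk.symm
    classical
    obtain ⟨h3, h4⟩ := Nat.find_spec h2
    have h5 := hp g' (isConj_iff.2 ⟨w, hg'.symm⟩) hr x (Nat.find h2) h3 h4
    rw [vl_pow_single g' (Nat.find h2) 0 h3, pow_zero, inv_one, one_smul] at h5
    · exact hx h5
    · intro i hi hi0
      by_contra hcon
      have h6 := hw2 x _ hx hcon (-(i : ℤ)) (by rw [zpow_neg, zpow_natCast])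
      have h7 : g'.right ^ i • x = x := by
        rw [inv_smul_eq_iff] at h6
        exact h6.symm
      exact Nat.find_min h2 hi ⟨Nat.pos_of_ne_zero hi0, h7⟩
  rw [isConj_iff]
  refine ⟨w, ?_⟩
  rw [← hg']
  apply SemidirectProduct.ext
  · apply Subtype.ext
    funext x
    exact hv x
  · exact hr

end Pool.Agent.H92.Wr
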