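import Mathlib

set_option autoImplicit false

/-!
Permutational restricted wreath products as sets of pairs; exceptional elements.
-/

namespace Pool.Agent.H92.Wr

universe u v w

/-- The elements `(l, r)` of the restricted wreath product of `H` by the group `Q` acting on `Ω`:
`l : Ω → H` has finite support, `r` is in `Q`. -/
@[ext] structure WP (Q : Type w) (Ω : Type u) (H : Type v) [Group H] where
  l : Ω → H
  fin : {x | l x ≠ 1}.Finite
  r : Q

variable {Q : Type w} [Group Q] {Ω : Type u} [MulAction Q Ω] {H : Type v} [Group H]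

theorem wp_fin_mul (a b : WP Q Ω H) : {x | a.l x * b.l (a.r⁻¹ • x) ≠ 1}.Finite := by
  refine (a.fin.union (b.fin.image (fun x => a.r • x))).subset ?_
  intro x hx
  by_contra hcon
  rw [Set.mem_union, not_or] at hcon
  have h1 : a.l x = 1 := not_not.1 hcon.1
  apply hx
  rw [h1, one_mul]
  by_contra h2
  exact hcon.2 ⟨a.r⁻¹ • x, h2, smul_inv_smul _ _⟩

theorem wp_fin_inv (a : WP Q Ω H) : {x | (a.l (a.r • x))⁻¹ ≠ 1}.Finite := by
  refine (a.fin.image (fun x => a.r⁻¹ • x)).subset ?_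
  intro x hx
  refine ⟨a.r • x, ?_, inv_smul_smul _ _⟩
  intro h1
  apply hx
  rw [h1, inv_one]

theorem wp_fin_one : {x : Ω | (1 : H) ≠ 1}.Finite := by
  simp

/-- `(l, r) (l', r') = (l'', r r')` with `l'' x = l x * l' (r⁻¹ x)`. -/
instance : Mul (WP Q Ω H) := ⟨fun a b => ⟨fun x => a.l x * b.l (a.r⁻¹ • x), wp_fin_mul a b, a.r * b.r⟩⟩

instance : One (WP Q Ω H) := ⟨⟨fun _ => 1, wp_fin_one, 1⟩⟩

instance : Inv (WP Q Ω H) := ⟨fun a => ⟨fun x => (a.l (a.r • x))⁻¹, wp_fin_inv a, a.r⁻¹⟩⟩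

theorem wp_assoc (a b c : WP Q Ω H) : a * b * c = a * (b * c) := by
  apply WP.ext
  · funext x
    change a.l x * b.l (a.r⁻¹ • x) * c.l ((a.r * b.r)⁻¹ • x) =
      a.l x * (b.l (a.r⁻¹ • x) * c.l (b.r⁻¹ • a.r⁻¹ • x))
    rw [mul_inv_rev, mul_smul, mul_assoc]
  · exact mul_assoc a.r b.r c.r

theorem wp_one_mul (a : WP Q Ω H) : 1 * a = a := by
  apply WP.ext
  · funext x
    change 1 * a.l ((1 : Q)⁻¹ • x) = a.l x
    rw [inv_one, one_smul, one_mul]
  · exact one_mul a.r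

theorem wp_inv_mul (a : WP Q Ω H) : a⁻¹ * a = 1 := by
  apply WP.ext
  · funext x
    change (a.l (a.r • x))⁻¹ * a.l ((a.r⁻¹)⁻¹ • x) = 1
    rw [inv_inv, inv_mul_cancel]
  · exact inv_mul_cancel a.r

/-- The restricted wreath product of `H` by the group `Q` acting on `Ω`. -/
instance : Group (WP Q Ω H) := Group.ofLeftAxioms wp_assoc wp_one_mul wp_inv_mul

/-- The element `g` is conjugate to proper powers for all primes that are not units in `R`, and if
`R` has characteristic zero, then it is conjugate to `g ^ (n ^ J)` for all `n` prime to some `m`. -/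
def Exc (R : Type*) [CommRing R] {G : Type*} [Group G] (g : G) : Prop :=
  (∀ p : ℕ, p.Prime → ¬ IsUnit (p : R) → ∃ j : ℕ, 1 ≤ j ∧ IsConj g (g ^ p ^ j)) ∧
    (CharZero R → ∃ m J : ℕ, 2 ≤ m ∧ 1 ≤ J ∧ ∀ n : ℕ, n.Coprime m → IsConj g (g ^ n ^ J))

end Pool.Agent.H92.Wr
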