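import Pool.Agent.H92.Am.Bass
import Pool.Agent.H92.Wr.Conj
import Pool.Agent.H92.Wr.WP

set_option autoImplicit false

/-!
The Bass trace conjecture for permutational wreath products.
-/

namespace Pool.Agent.H92.Wr

open MonoidAlgebra
open Pool.Agent.H23R2.Cyc (tf tf_apply)
open Pool.Agent.H26R2.IdemLI (AlmostDiv)
open Pool.Agent.H26R2.Bass
open Pool.Agent.Y75.BF (InfOrd)
open Pool.Agent.H92.Am (tf_zero_of_sep bass_retract exists_pow infOrd_conj ind_eq)

universe u v w z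

variable {R : Type z} [CommRing R]

theorem exc_of_tf [IsDomain R] {G : Type v} [Group G] {n : ℕ}
    (A : Matrix (Fin n) (Fin n) (MonoidAlgebra R G)) (hA : A * A = A) (g : G)
    (hg : tf (ind R g) A ≠ 0) : Exc R g := by
  refine ⟨fun p hp hpR => ?_, fun h0 => almostDiv_of_tf A hA g hg⟩
  by_contra hcon
  push Not at hcon
  exact hg (tf_zero_of_prime hp hpR A hA g hcon)

theorem exc_one {G : Type v} [Group G] : Exc R (1 : G) :=
  ⟨fun p _ _ => ⟨1, le_rfl, by rw [one_pow]⟩,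
    fun _ => ⟨2, 1, le_rfl, le_rfl, fun n _ => by rw [one_pow]⟩⟩

theorem conj_pow_of {G : Type v} [Group G] {a b : G} (h : IsConj a b) (n : ℕ) :
    IsConj (a ^ n) (b ^ n) := by
  obtain ⟨c, rfl⟩ := isConj_iff.1 h
  exact isConj_iff.2 ⟨c, (conj_pow).symm⟩

theorem exc_conj {G : Type v} [Group G] {a b : G} (h : IsConj a b) (ha : Exc R a) : Exc R b := by
  have key : ∀ n : ℕ, IsConj a (a ^ n) → IsConj b (b ^ n) := fun n hn =>
    (h.symm.trans hn).trans (conj_pow_of h n)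
  refine ⟨fun p hp hpR => ?_, fun h0 => ?_⟩
  · obtain ⟨j, hj, h1⟩ := ha.1 p hp hpR
    exact ⟨j, hj, key _ h1⟩
  · obtain ⟨m, J, hm, hJ, h1⟩ := ha.2 h0
    exact ⟨m, J, hm, hJ, fun n hn => key _ (h1 n hn)⟩

theorem conj_iter {G : Type v} [Group G] {c : G} {a : ℕ} (h : IsConj c (c ^ a)) (r : ℕ) :
    IsConj c (c ^ a ^ r) := by
  induction r with
  | zero => rw [pow_zero, pow_one]
  | succ r ih =>
    rw [pow_succ', pow_mul]
    exact ih.trans (conj_pow_of h (a ^ r))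

variable {Q : Type w} [Group Q] {Ω : Type u} [MulAction Q Ω] {H : Type v} [Group H]

/-- cycle products at periodic points are exceptional -/
theorem exc_per {g : Wrp Q Ω H} (hg : Exc R g) (x : Ω) (k : ℕ) (hk : 0 < k)
    (hx : g.right ^ k • x = x) : Exc R (vl (g ^ k) x) := by
  by_cases hne : vl (g ^ k) x = 1
  · rw [hne]
    exact exc_one
  refine ⟨fun p hp hpR => ?_, fun h0 => ?_⟩
  · obtain ⟨j, hj, h1⟩ := hg.1 p hp hpR
    obtain ⟨t, ht⟩ := isConj_iff.1 h1
    obtain ⟨N, hN, -, h2⟩ := per_conj (Nat.one_le_pow _ _ hp.pos) ht x k hk hx hne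
    refine ⟨j * N, Nat.mul_pos hj hN, ?_⟩
    rw [pow_mul]
    exact h2
  · obtain ⟨m, J, hm, hJ, h1⟩ := hg.2 h0
    refine ⟨m, J * (BB g).ncard.factorial, hm, Nat.mul_pos hJ (Nat.factorial_pos _), fun n hn => ?_⟩
    have hn0 : 0 < n := by
      rcases Nat.eq_zero_or_pos n with h2 | h2
      · rw [h2, Nat.coprime_zero_left] at hn
        omega
      · exact h2
    obtain ⟨t, ht⟩ := isConj_iff.1 (h1 n hn)
    obtain ⟨N, hN, hNB, h2⟩ := per_conj (Nat.one_le_pow _ _ hn0) ht x k hk hx hne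
    obtain ⟨r, hr⟩ := Nat.dvd_factorial hN hNB
    have h3 := conj_iter h2 r
    rw [← pow_mul, ← pow_mul, ← hr] at h3
    rw [pow_mul] at h3 ⊢
    exact h3

/-- exceptional elements of infinite order -/
theorem exc_inr (hH : ∀ h : H, Exc R h → h = 1 ∨
      ((∃ n : ℕ, 0 < n ∧ h ^ n = 1) ∧ ∀ (x : Ω) (q : Q), q • x = x → ∃ n : ℕ, 0 < n ∧ q ^ n = 1))
    (g : Wrp Q Ω H) (hg : Exc R g) (m : ℕ) (hm : 2 ≤ m) (hgm : IsConj g (g ^ m))
    (hinf : InfOrd g) : IsConj g (SemidirectProduct.inr g.right) := by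
  apply conj_inr g m hm hgm
  intro g' hg1 hg2 x k hk hx
  rcases hH _ (exc_per (exc_conj hg1 hg) x k hk hx) with h1 | ⟨-, h1⟩
  · exact h1
  exfalso
  -- the element `g'.right` has finite order
  obtain ⟨n, hn, h2⟩ := h1 x _ hx
  rw [← pow_mul] at h2
  have hkn : 0 < k * n := Nat.mul_pos hk hn
  obtain ⟨N, hN⟩ : ∃ N, N = k * n := ⟨_, rfl⟩
  rw [← hN] at h2 hkn
  -- all cycle products have finite order
  have h3 : ∀ y : Ω, ∃ j : ℕ, 0 < j ∧ vl (g' ^ N) y ^ j = 1 := by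
    intro y
    rcases hH _ (exc_per (exc_conj hg1 hg) y N hkn (by rw [h2, one_smul])) with h4 | ⟨h4, -⟩
    · exact ⟨1, one_pos, by rw [h4, one_pow]⟩
    · exact h4
  choose j hj1 hj2 using h3
  obtain ⟨M, hM⟩ : ∃ M, M = ∏ y ∈ (vl_fin (g' ^ N)).toFinset, j y := ⟨_, rfl⟩
  have hM0 : 0 < M := by
    rw [hM]
    exact Finset.prod_pos fun y _ => hj1 y
  have h5 : (g' ^ N) ^ M = 1 := by
    apply SemidirectProduct.ext
    · apply Subtype.ext
      funext y
      have h6 : vl ((g' ^ N) ^ M) y = vl (g' ^ N) y ^ M := by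
        have h7 := vl_pow_fix g' N y (by rw [h2, one_smul]) M
        rw [pow_mul] at h7
        exact h7
      change vl ((g' ^ N) ^ M) y = 1
      rw [h6]
      by_cases h8 : vl (g' ^ N) y = 1
      · rw [h8, one_pow]
      · obtain ⟨r, hr⟩ : j y ∣ M := by
          rw [hM]
          exact Finset.dvd_prod_of_mem j ((Set.Finite.mem_toFinset _).2 h8)
        rw [hr, pow_mul, hj2, one_pow]
    · rw [right_pow, right_pow, h2, one_pow]
      rfl
  rw [← pow_mul] at h5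
  exact infOrd_conj hg1 hinf _ (Nat.mul_pos hkn hM0) h5

/-- the Bass trace conjecture for permutational wreath products -/
theorem bass_wr [IsDomain R] (hH : ∀ h : H, Exc R h → h = 1 ∨
      ((∃ n : ℕ, 0 < n ∧ h ^ n = 1) ∧ ∀ (x : Ω) (q : Q), q • x = x → ∃ n : ℕ, 0 < n ∧ q ^ n = 1))
    (hQ : BassFor R Q) : BassFor R (Wrp Q Ω H) := by
  intro n A hA g hg
  have hA' : A * A = A := hA
  change tau A g = 0
  rw [tau_eq]
  by_cases hfin : orderOf g = 0
  swap
  · exact tf_zero_of_finite A hA' g hfin hg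
  by_contra hne
  have hinf : InfOrd g := orderOf_eq_zero_iff'.1 hfin
  have key : ∀ h : Wrp Q Ω H, InfOrd h → tf (ind R h) A ≠ 0 →
      IsConj h (SemidirectProduct.inr h.right) := by
    intro h hh1 hh2
    obtain ⟨m, hm, hhm⟩ := exists_pow A hA' h hh2
    exact exc_inr hH h (exc_of_tf A hA' h hh2) m hm hhm hh1
  have h1 := key g hinf hne
  have h2 : InfOrd (SemidirectProduct.rightHom g) := by
    intro j hj h3
    apply infOrd_conj h1 hinf j hj
    rw [← map_pow]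
    have h4 : g.right ^ j = 1 := h3
    rw [h4, map_one]
  apply hne
  apply tf_zero_of_sep hQ SemidirectProduct.rightHom A hA' g h2
  intro h hh1 hh2
  have h3 : InfOrd h := by
    apply Pool.Agent.H92.Am.infOrd_of_map SemidirectProduct.rightHom
    exact infOrd_conj hh2.symm h2
  have h4 := key h h3 hh1
  have h5 : IsConj (SemidirectProduct.inr h.right : Wrp Q Ω H) (SemidirectProduct.inr g.right) :=
    MonoidHom.map_isConj SemidirectProduct.inr hh2
  exact (h4.trans h5).trans h1.symm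

theorem bass_wr_top [IsDomain R] (h : BassFor R (Wrp Q Ω H)) : BassFor R Q :=
  bass_retract (SemidirectProduct.inr : Q →* Wrp Q Ω H) SemidirectProduct.rightHom
    (MonoidHom.ext fun _ => rfl) h

/-- comparison with the semidirect product -/
def wpEquiv (Q : Type w) [Group Q] (Ω : Type u) [MulAction Q Ω] (H : Type v) [Group H] :
    Wrp Q Ω H ≃* WP Q Ω H where
  toFun g := ⟨g.left.1, g.left.2, g.right⟩
  invFun g := ⟨⟨g.l, g.fin⟩, g.r⟩
  left_inv _ := rfl
  right_inv _ := rfl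
  map_mul' _ _ := rfl

theorem bass_wp [IsDomain R] (hH : ∀ h : H, Exc R h → h = 1 ∨
      ((∃ n : ℕ, 0 < n ∧ h ^ n = 1) ∧ ∀ (x : Ω) (q : Q), q • x = x → ∃ n : ℕ, 0 < n ∧ q ^ n = 1)) :
    BassFor R (WP Q Ω H) ↔ BassFor R Q :=
  ⟨fun h => bass_wr_top (Pool.Agent.Y75.BF.bass_iso (wpEquiv Q Ω H).symm h),
    fun h => Pool.Agent.Y75.BF.bass_iso (wpEquiv Q Ω H) (bass_wr hH h)⟩

end Pool.Agent.H92.Wr
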