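import Pool.Agent.H92.Wr.Defs

set_option autoImplicit false

/-!
Elements of wreath products which are conjugate to proper powers.
-/

namespace Pool.Agent.H92.Wr

universe u v w

variable {Q : Type w} [Group Q] {Ω : Type u} [MulAction Q Ω] {H : Type v} [Group H]

/-- the value of the first component -/
def vl (g : Wrp Q Ω H) (x : Ω) : H := g.left.1 x

theorem vl_fin (g : Wrp Q Ω H) : {x | vl g x ≠ 1}.Finite := g.left.2

theorem vl_mul (a b : Wrp Q Ω H) (x : Ω) : vl (a * b) x = vl a x * vl b (a.right⁻¹ • x) := rfl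

theorem vl_one (x : Ω) : vl (1 : Wrp Q Ω H) x = 1 := rfl

theorem right_pow (g : Wrp Q Ω H) (n : ℕ) : (g ^ n).right = g.right ^ n :=
  map_pow (SemidirectProduct.rightHom : Wrp Q Ω H →* Q) g n

theorem vl_pow_add (g : Wrp Q Ω H) (j k : ℕ) (x : Ω) :
    vl (g ^ (j + k)) x = vl (g ^ j) x * vl (g ^ k) ((g.right ^ j)⁻¹ • x) := by
  rw [pow_add, vl_mul, right_pow]

theorem vl_pow_one (g : Wrp Q Ω H) (j : ℕ) (x : Ω)
    (h : ∀ i < j, vl g ((g.right ^ i)⁻¹ • x) = 1) : vl (g ^ j) x = 1 := by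
  induction j with
  | zero => rw [pow_zero, vl_one]
  | succ j ih =>
    rw [vl_pow_add, ih (fun i hi => h i (by omega)), pow_one, one_mul]
    exact h j (by omega)

theorem vl_pow_single (g : Wrp Q Ω H) (j i₀ : ℕ) (hi₀ : i₀ < j) (x : Ω)
    (h : ∀ i < j, i ≠ i₀ → vl g ((g.right ^ i)⁻¹ • x) = 1) :
    vl (g ^ j) x = vl g ((g.right ^ i₀)⁻¹ • x) := by
  obtain ⟨r, rfl⟩ : ∃ r, j = i₀ + (1 + r) := ⟨j - i₀ - 1, by omega⟩
  rw [vl_pow_add, vl_pow_one g i₀ x (fun i hi => h i (by omega) (by omega)), one_mul, vl_pow_add,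
    pow_one, vl_pow_one g r, mul_one]
  intro i hi
  have h1 := h (i₀ + (1 + i)) (by omega) (by omega)
  rw [pow_add, pow_add, mul_inv_rev, mul_inv_rev, mul_smul, mul_smul] at h1
  exact h1

theorem vl_pow_fix (g : Wrp Q Ω H) (k : ℕ) (x : Ω) (hx : g.right ^ k • x = x) (j : ℕ) :
    vl (g ^ (k * j)) x = vl (g ^ k) x ^ j := by
  have hx' : (g.right ^ k)⁻¹ • x = x := by
    conv_lhs => rw [← hx]
    rw [inv_smul_smul]
  induction j with
  | zero => rw [mul_zero, pow_zero, pow_zero, vl_one]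
  | succ j ih =>
    have h1 : k * (j + 1) = k + k * j := by ring
    rw [h1, vl_pow_add, hx', ih, pow_succ']

section rel

variable {g t : Wrp Q Ω H} {m : ℕ} (h : t * g * t⁻¹ = g ^ m)

include h

theorem rel1 (K : ℕ) : t * g ^ K = g ^ (K * m) * t := by
  have h1 : t * g ^ K * t⁻¹ = (g ^ m) ^ K := by rw [← h, conj_pow]
  rw [← pow_mul, mul_comm m K] at h1
  rw [← h1]
  group

theorem relN (N K : ℕ) : t ^ N * g ^ K = g ^ (K * m ^ N) * t ^ N := by
  induction N with
  | zero => rw [pow_zero, pow_zero, mul_one, one_mul, mul_one]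
  | succ N ih =>
    rw [pow_succ', mul_assoc, ih, ← mul_assoc, rel1 h, mul_assoc]
    congr 2
    rw [mul_assoc, ← pow_succ]

theorem relq (K : ℕ) : t.right * g.right ^ K = g.right ^ (K * m) * t.right := by
  have h1 := congrArg SemidirectProduct.right (rel1 h K)
  rw [SemidirectProduct.mul_right, SemidirectProduct.mul_right, right_pow, right_pow] at h1
  exact h1

theorem relqN (N K : ℕ) : t.right ^ N * g.right ^ K = g.right ^ (K * m ^ N) * t.right ^ N := by
  have h1 := congrArg SemidirectProduct.right (relN h N K)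
  rw [SemidirectProduct.mul_right, SemidirectProduct.mul_right, right_pow, right_pow,
    right_pow] at h1
  exact h1

end rel

/-! ### periodic points -/

/-- the periodic points with a nontrivial cycle product -/
def BB (g : Wrp Q Ω H) : Set Ω := {x | ∃ k : ℕ, 0 < k ∧ g.right ^ k • x = x ∧ vl (g ^ k) x ≠ 1}

theorem BB_fin (g : Wrp Q Ω H) : (BB g).Finite := by
  have h1 : (⋃ y ∈ {x | vl g x ≠ 1}, (fun i : ℕ => g.right ^ i • y) ''
      {i | i < Function.minimalPeriod (fun z : Ω => g.right • z) y}).Finite :=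
    (vl_fin g).biUnion fun y _ => (Set.finite_lt_nat _).image _
  refine h1.subset ?_
  rintro x ⟨k, hk, hkx, hne⟩
  have h2 : ∃ i < k, vl g ((g.right ^ i)⁻¹ • x) ≠ 1 := by
    by_contra hcon
    push Not at hcon
    exact hne (vl_pow_one g k x hcon)
  obtain ⟨i, -, hi⟩ := h2
  rw [Set.mem_iUnion₂]
  refine ⟨(g.right ^ i)⁻¹ • x, hi, ?_⟩
  obtain ⟨y, hy⟩ : ∃ y, y = (g.right ^ i)⁻¹ • x := ⟨_, rfl⟩
  have hx : x = g.right ^ i • y := by rw [hy, smul_inv_smul]
  rw [← hy]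
  have hit : ∀ (j : ℕ) (z : Ω), (fun z : Ω => g.right • z)^[j] z = g.right ^ j • z := by
    intro j z
    rw [smul_iterate]
  have hper : g.right ^ k • y = y := by
    rw [hy, smul_smul]
    have h3 : g.right ^ k * (g.right ^ i)⁻¹ = (g.right ^ i)⁻¹ * g.right ^ k := by
      have : Commute (g.right ^ k) (g.right ^ i)⁻¹ := ((Commute.refl g.right).pow_pow k i).inv_right
      exact this
    rw [h3, mul_smul, hkx]
  have hpt : Function.IsPeriodicPt (fun z : Ω => g.right • z) k y := by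
    change (fun z : Ω => g.right • z)^[k] y = y
    rw [hit, hper]
  have hpos := hpt.minimalPeriod_pos hk
  refine ⟨i % Function.minimalPeriod (fun z : Ω => g.right • z) y, Nat.mod_lt _ hpos, ?_⟩
  have h4 := Function.iterate_mod_minimalPeriod_eq (f := fun z : Ω => g.right • z) (x := y) (n := i)
  rw [hit, hit] at h4
  change g.right ^ (i % Function.minimalPeriod (fun z : Ω => g.right • z) y) • y = x
  rw [h4, ← hx]

/-- cycle products at periodic points are conjugate to their powers -/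
theorem per_conj {g t : Wrp Q Ω H} {m : ℕ} (hm : 1 ≤ m) (h : t * g * t⁻¹ = g ^ m) (x : Ω) (k : ℕ)
    (hk : 0 < k) (hx : g.right ^ k • x = x) (hne : vl (g ^ k) x ≠ 1) :
    ∃ N : ℕ, 0 < N ∧ N ≤ (BB g).ncard ∧ IsConj (vl (g ^ k) x) (vl (g ^ k) x ^ m ^ N) := by
  have hstep : ∀ y ∈ BB g, t.right • y ∈ BB g := by
    rintro y ⟨j, hj, hjy, hjne⟩
    refine ⟨j * m, Nat.mul_pos hj (by omega), ?_, ?_⟩
    · rw [smul_smul, ← relq h, mul_smul, hjy]
    · intro h1
      apply hjne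
      have h2 : vl (t * g ^ j) (t.right • y) = vl (g ^ (j * m) * t) (t.right • y) :=
        congrArg (fun z => vl z (t.right • y)) (rel1 h j)
      rw [vl_mul, vl_mul, inv_smul_smul, h1, one_mul, right_pow] at h2
      have h3 : (g.right ^ (j * m))⁻¹ • t.right • y = t.right • y := by
        rw [inv_smul_eq_iff, smul_smul, ← relq h, mul_smul, hjy]
      rw [h3] at h2
      exact mul_eq_left.1 h2
  have hall : ∀ j : ℕ, t.right ^ j • x ∈ BB g := by
    intro j
    induction j with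
    | zero => rw [pow_zero, one_smul]; exact ⟨k, hk, hx, hne⟩
    | succ j ih => rw [pow_succ', mul_smul]; exact hstep _ ih
  obtain ⟨i, j, hij, hj, hxx⟩ : ∃ i j : ℕ, i < j ∧ j ≤ (BB g).ncard ∧
      t.right ^ i • x = t.right ^ j • x := by
    have h2 : (BB g).ncard < (Set.Iic (BB g).ncard).ncard := by
      rw [← Nat.card_coe_set_eq (Set.Iic (BB g).ncard), Nat.card_eq_fintype_card,
        Fintype.card_Iic, Nat.card_Iic]
      omega
    obtain ⟨i, hi, j, hj, hne, hij⟩ := Set.exists_ne_map_eq_of_ncard_lt_of_maps_to h2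
      (f := fun j : ℕ => t.right ^ j • x) (fun j _ => hall j) (BB_fin g)
    rcases lt_or_gt_of_ne hne with h3 | h3
    · exact ⟨i, j, h3, hj, hij⟩
    · exact ⟨j, i, h3, hi, hij.symm⟩
  obtain ⟨N, hN, hNB, hNx⟩ : ∃ N : ℕ, 0 < N ∧ N ≤ (BB g).ncard ∧ t.right ^ N • x = x := by
    refine ⟨j - i, by omega, by omega, ?_⟩
    have h1 : t.right ^ j = t.right ^ i * t.right ^ (j - i) := by
      rw [← pow_add]; congr 1; omega
    rw [h1, mul_smul] at hxx
    exact (MulAction.injective (t.right ^ i) hxx).symm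
  have hinv : (t.right ^ N)⁻¹ • x = x := by
    rw [inv_smul_eq_iff, hNx]
  have h1 : vl (t ^ N * g ^ k) x = vl (g ^ (k * m ^ N) * t ^ N) x :=
    congrArg (fun z => vl z x) (relN h N k)
  rw [vl_mul, vl_mul, right_pow, right_pow, hinv, vl_pow_fix g k x hx] at h1
  have h2 : (g.right ^ (k * m ^ N))⁻¹ • x = x := by
    rw [inv_smul_eq_iff]
    have h3 : ∀ j : ℕ, g.right ^ (k * j) • x = x := by
      intro j
      induction j with
      | zero => rw [mul_zero, pow_zero, one_smul]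
      | succ j ih =>
        have h4 : k * (j + 1) = k * j + k := by ring
        rw [h4, pow_add, mul_smul, hx, ih]
    exact (h3 _).symm
  rw [h2] at h1
  exact ⟨N, hN, hNB, isConj_iff.2 ⟨vl (t ^ N) x, by rw [h1]; group⟩⟩

/-! ### normalized elements -/

/-- at most one point of the support in every orbit -/
def Nrm (g : Wrp Q Ω H) : Prop :=
  ∀ y z : Ω, vl g y ≠ 1 → vl g z ≠ 1 → ∀ k : ℤ, z = g.right ^ k • y → z = y

/-- not periodic -/
def Np (q : Q) (y : Ω) : Prop := ∀ k : ℤ, q ^ k • y = y → k = 0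

theorem np_smul {q : Q} {y : Ω} (hy : Np q y) (a : ℤ) : Np q (q ^ a • y) := by
  intro k hk
  apply hy k
  rw [smul_smul, ← zpow_add, add_comm, zpow_add, mul_smul] at hk
  exact MulAction.injective (q ^ a) hk

section rel2

variable {g t : Wrp Q Ω H} {m : ℕ} (h : t * g * t⁻¹ = g ^ m)

include h

theorem relz (k : ℤ) : t.right * g.right ^ k = g.right ^ ((m : ℤ) * k) * t.right := by
  have h1 := relq h 1
  rw [pow_one, one_mul] at h1
  have h2 : t.right * g.right * t.right⁻¹ = g.right ^ m := by rw [h1]; group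
  have h3 : t.right * g.right ^ k * t.right⁻¹ = (g.right ^ m) ^ k := by
    rw [← h2]
    exact (conj_zpow (a := t.right) (b := g.right) (i := k)).symm
  rw [zpow_mul, zpow_natCast, ← h3]
  group

theorem np_inv (hm : 2 ≤ m) {y : Ω} (hy : Np g.right y) : Np g.right (t.right⁻¹ • y) := by
  intro k hk
  have h1 : t.right • g.right ^ k • t.right⁻¹ • y = t.right • t.right⁻¹ • y :=
    congrArg (fun z => t.right • z) hk
  rw [smul_smul, relz h, mul_smul, smul_inv_smul] at h1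
  have h2 := hy _ h1
  rcases mul_eq_zero.1 h2 with h3 | h3
  · exfalso
    have : (m : ℤ) ≠ 0 := by exact_mod_cast (by omega : m ≠ 0)
    exact this h3
  · exact h3

omit h in
theorem finite_np (f : Ω → H) (hf : {x | f x ≠ 1}.Finite) {q : Q} {z : Ω} (hz : Np q z) (c : ℤ)
    (hc : c ≠ 0) : ∃ N : ℕ, ∀ n : ℕ, N ≤ n → f (q ^ (c * (n : ℤ)) • z) = 1 := by
  have hinj : Function.Injective (fun n : ℕ => q ^ (c * (n : ℤ)) • z) := by
    intro a b hab
    have h1 : q ^ (c * (a : ℤ)) • z = q ^ (c * (b : ℤ)) • z := hab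
    have h2 : q ^ (c * (a : ℤ) - c * (b : ℤ)) • z = z := by
      rw [sub_eq_neg_add, zpow_add, mul_smul, h1, zpow_neg, inv_smul_smul]
    have h3 := hz _ h2
    have h4 : c * ((a : ℤ) - b) = 0 := by rw [mul_sub]; exact h3
    rcases mul_eq_zero.1 h4 with h5 | h5
    · exact absurd h5 hc
    · exact_mod_cast sub_eq_zero.1 h5
  have h1 : {n : ℕ | f (q ^ (c * (n : ℤ)) • z) ≠ 1}.Finite :=
    hf.preimage hinj.injOn
  obtain ⟨N, hN⟩ := h1.bddAbove
  refine ⟨N + 1, fun n hn => ?_⟩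
  by_contra hcon
  have := hN hcon
  omega

/-- the comparison of the products over the orbits of `x` and `t x` -/
theorem compare (hm : 2 ≤ m) {z : Ω} (hz : Np g.right z) : ∃ N : ℕ, ∀ n : ℕ, N ≤ n →
    vl (g ^ (2 * n)) (g.right ^ (n : ℤ) • (t.right⁻¹ • z)) =
      vl (g ^ (2 * n * m)) (g.right ^ ((m : ℤ) * n) • z) := by
  obtain ⟨N₁, h1⟩ := finite_np (vl t) (vl_fin t) hz (m : ℤ) (by exact_mod_cast (by omega : m ≠ 0))
  obtain ⟨N₂, h2⟩ := finite_np (vl t) (vl_fin t) hz (-(m : ℤ))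
    (by rw [neg_ne_zero]; exact_mod_cast (by omega : m ≠ 0))
  refine ⟨max N₁ N₂, fun n hn => ?_⟩
  have h3 : vl (t * g ^ (2 * n)) (g.right ^ ((m : ℤ) * n) • z) =
      vl (g ^ (2 * n * m) * t) (g.right ^ ((m : ℤ) * n) • z) :=
    congrArg (fun w => vl w (g.right ^ ((m : ℤ) * n) • z)) (rel1 h (2 * n))
  rw [vl_mul, vl_mul, right_pow, h1 n (le_trans (le_max_left _ _) hn), one_mul] at h3
  have h4 : (g.right ^ (2 * n * m))⁻¹ • g.right ^ ((m : ℤ) * n) • z =
      g.right ^ (-(m : ℤ) * n) • z := by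
    rw [smul_smul, ← zpow_natCast, ← zpow_neg, ← zpow_add]
    congr 2
    push_cast
    ring
  rw [h4, h2 n (le_trans (le_max_right _ _) hn), mul_one] at h3
  rw [← h3]
  congr 1
  have h5 : t.right⁻¹ * g.right ^ ((m : ℤ) * n) = g.right ^ (n : ℤ) * t.right⁻¹ := by
    rw [inv_mul_eq_iff_eq_mul, ← mul_assoc, relz h, mul_inv_cancel_right]
  rw [smul_smul, ← h5, mul_smul]

end rel2

theorem nrm_orbit {g : Wrp Q Ω H} (hn : Nrm g) {y : Ω} (hy : vl g y ≠ 1) (hnp : Np g.right y)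
    (k : ℤ) : ∃ N : ℕ, ∀ n : ℕ, N ≤ n →
      vl (g ^ (2 * n)) (g.right ^ (n : ℤ) • (g.right ^ k • y)) ≠ 1 := by
  refine ⟨k.natAbs + 1, fun n hnk => ?_⟩
  have h1 : ∀ i : ℕ, (g.right ^ i)⁻¹ • (g.right ^ (n : ℤ) • (g.right ^ k • y)) =
      g.right ^ ((n : ℤ) + k - i) • y := by
    intro i
    rw [smul_smul, smul_smul, ← zpow_natCast, ← zpow_neg, ← zpow_add, ← zpow_add]
    congr 2
    ring
  obtain ⟨i₀, hi₀⟩ : ∃ i₀ : ℕ, (i₀ : ℤ) = (n : ℤ) + k := ⟨((n : ℤ) + k).toNat, by omega⟩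
  rw [vl_pow_single g (2 * n) i₀ (by omega)]
  · rw [h1, ← hi₀, sub_self, zpow_zero, one_smul]
    exact hy
  · intro i _ hne
    rw [h1]
    by_contra hcon
    have h2 := hn y _ hy hcon _ rfl
    have h3 := hnp _ h2
    apply hne
    omega

theorem orbit_of_ne {g : Wrp Q Ω H} {z : Ω} {j : ℕ} {a : ℤ}
    (h : vl (g ^ j) (g.right ^ a • z) ≠ 1) : ∃ (y : Ω) (k : ℤ), vl g y ≠ 1 ∧
      z = g.right ^ k • y := by
  have h2 : ∃ i < j, vl g ((g.right ^ i)⁻¹ • (g.right ^ a • z)) ≠ 1 := by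
    by_contra hcon
    push Not at hcon
    exact h (vl_pow_one g j _ hcon)
  obtain ⟨i, -, hi⟩ := h2
  refine ⟨_, (i : ℤ) - a, hi, ?_⟩
  rw [smul_smul, smul_smul, ← zpow_natCast, ← zpow_neg, ← zpow_add, ← zpow_add]
  have : (i : ℤ) - a + (-(i : ℤ)) + a = 0 := by ring
  rw [this, zpow_zero, one_smul]

/-- the supports of normalized elements consist of periodic points -/
theorem nrm_per {g t : Wrp Q Ω H} {m : ℕ} (hm : 2 ≤ m) (h : t * g * t⁻¹ = g ^ m) (hn : Nrm g)
    (x : Ω) (hx : vl g x ≠ 1) : ¬ Np g.right x := by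
  classical
  intro hnp
  let O : Set Ω := {y | vl g y ≠ 1 ∧ Np g.right y}
  have hO : O.Finite := (vl_fin g).subset fun y hy => hy.1
  have hne : x ∈ O := ⟨hx, hnp⟩
  have key : ∀ (y : O) (i : Fin m), ∃ (z : O) (k : ℤ),
      t.right⁻¹ • (g.right ^ ((i : ℕ) : ℤ) • (y : Ω)) = g.right ^ k • (z : Ω) := by
    rintro ⟨y, hy1, hy2⟩ i
    have h1 : Np g.right (g.right ^ ((i : ℕ) : ℤ) • y) := np_smul hy2 _
    have h2 := np_inv h hm h1
    obtain ⟨N₁, h3⟩ := compare h hm h1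
    obtain ⟨N₂, h4⟩ := nrm_orbit hn hy1 hy2 ((i : ℕ) : ℤ)
    have hmn : N₂ ≤ (max N₁ N₂) * m := le_trans (le_max_right _ _) (Nat.le_mul_of_pos_right _ (by omega))
    have h5 := h4 _ hmn
    have h6 := h3 (max N₁ N₂) (le_max_left _ _)
    have h7 : vl (g ^ (2 * max N₁ N₂)) (g.right ^ ((max N₁ N₂ : ℕ) : ℤ) •
        (t.right⁻¹ • (g.right ^ ((i : ℕ) : ℤ) • y))) ≠ 1 := by
      rw [h6]
      have e1 : 2 * max N₁ N₂ * m = 2 * (max N₁ N₂ * m) := by ring
      have e2 : (m : ℤ) * ((max N₁ N₂ : ℕ) : ℤ) = ((max N₁ N₂ * m : ℕ) : ℤ) := by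
        push_cast; ring
      rw [e1, e2]
      exact h5
    obtain ⟨z, k, hz, hzk⟩ := orbit_of_ne h7
    refine ⟨⟨z, hz, ?_⟩, k, hzk⟩
    have h8 : z = g.right ^ (-k) • (t.right⁻¹ • (g.right ^ ((i : ℕ) : ℤ) • y)) := by
      rw [hzk, zpow_neg, inv_smul_smul]
    rw [h8]
    exact np_smul h2 _
  choose F K hF using key
  have hinj : Function.Injective (fun p : O × Fin m => F p.1 p.2) := by
    rintro ⟨y, i⟩ ⟨z, j⟩ hyz
    have hyz' : F y i = F z j := hyz
    have h1 := hF y i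
    have h2 := hF z j
    rw [hyz'] at h1
    have h3 : g.right ^ ((i : ℕ) : ℤ) • (y : Ω) =
        g.right ^ ((m : ℤ) * K y i) • (t.right • (F z j : Ω)) := by
      rw [smul_smul, ← relz h, mul_smul, ← h1, smul_inv_smul]
    have h4 : g.right ^ ((j : ℕ) : ℤ) • (z : Ω) =
        g.right ^ ((m : ℤ) * K z j) • (t.right • (F z j : Ω)) := by
      rw [smul_smul, ← relz h, mul_smul, ← h2, smul_inv_smul]
    have h5 : (z : Ω) = g.right ^ (-((j : ℕ) : ℤ) + (m : ℤ) * K z j - (m : ℤ) * K y i +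
        ((i : ℕ) : ℤ)) • (y : Ω) := by
      have h6 : (z : Ω) = g.right ^ (-((j : ℕ) : ℤ)) • (g.right ^ ((j : ℕ) : ℤ) • (z : Ω)) := by
        rw [zpow_neg, inv_smul_smul]
      have h7 : t.right • (F z j : Ω) = g.right ^ (-((m : ℤ) * K y i)) •
          (g.right ^ ((i : ℕ) : ℤ) • (y : Ω)) := by
        rw [h3, zpow_neg, inv_smul_smul]
      rw [h6, h4, h7, smul_smul, smul_smul, smul_smul, ← zpow_add, ← zpow_add, ← zpow_add]
      congr 2
    have hzy : (z : Ω) = y := hn _ _ y.2.1 z.2.1 _ h5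
    have hzy' : y = z := Subtype.ext hzy.symm
    have h6 : g.right ^ (-((j : ℕ) : ℤ) + (m : ℤ) * K z j - (m : ℤ) * K y i +
        ((i : ℕ) : ℤ)) • (y : Ω) = y := by
      rw [← h5, hzy]
    have h7 := y.2.2 _ h6
    have h8 : ((i : ℕ) : ℤ) - ((j : ℕ) : ℤ) = (m : ℤ) * (K y i - K z j) := by
      rw [mul_sub]; linarith
    have h9 : ((i : ℕ) : ℤ) = ((j : ℕ) : ℤ) := by
      have hi := i.2
      have hj := j.2
      have h10 : (m : ℤ) ∣ ((i : ℕ) : ℤ) - ((j : ℕ) : ℤ) := ⟨_, h8⟩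
      have h11 : |((i : ℕ) : ℤ) - ((j : ℕ) : ℤ)| < (m : ℤ) := by
        rw [abs_lt]
        constructor <;> omega
      have h12 := Int.eq_zero_of_abs_lt_dvd h10 h11
      omega
    have h10 : i = j := Fin.ext (by exact_mod_cast h9)
    rw [hzy', h10]
  have : Finite O := hO
  have : Fintype O := Fintype.ofFinite O
  have hcard := Fintype.card_le_of_injective _ hinj
  rw [Fintype.card_prod, Fintype.card_fin] at hcard
  have hpos : 0 < Fintype.card O := Fintype.card_pos_iff.2 ⟨⟨x, hne⟩⟩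
  nlinarith

end Pool.Agent.H92.Wr
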