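import Mathlib

set_option autoImplicit false

/-!
Permutational restricted wreath products.
-/

namespace Pool.Agent.H92.Wr

universe u v w

/-- The restricted direct power: the functions `Ω → H` with finite support. -/
def FS (Ω : Type u) (H : Type v) [Group H] : Subgroup (Ω → H) where
  carrier := {f | {x | f x ≠ 1}.Finite}
  one_mem' := by
    change {x : Ω | (1 : H) ≠ 1}.Finite
    simp
  mul_mem' := fun {f g} hf hg => by
    refine (Set.Finite.union hf hg).subset ?_
    intro x hx
    by_contra hcon
    rw [Set.mem_union, not_or] at hcon
    have h1 : f x = 1 := not_not.1 hcon.1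
    have h2 : g x = 1 := not_not.1 hcon.2
    apply hx
    change f x * g x = 1
    rw [h1, h2, one_mul]
  inv_mem' := fun {f} hf => by
    refine Set.Finite.subset hf ?_
    intro x hx h1
    apply hx
    change (f x)⁻¹ = 1
    rw [h1, inv_one]

variable (Q : Type w) [Group Q] (Ω : Type u) [MulAction Q Ω] (H : Type v) [Group H]

/-- The action of `Q` on the restricted direct power: `(q f) x = f (q⁻¹ x)`. -/
def sh : Q →* MulAut (FS Ω H) where
  toFun q :=
    { toFun := fun f => ⟨fun x => f.1 (q⁻¹ • x), by
        have h : {x | f.1 x ≠ 1}.Finite := f.2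
        refine (h.image (fun x => q • x)).subset ?_
        intro x hx
        exact ⟨q⁻¹ • x, hx, smul_inv_smul q x⟩⟩
      invFun := fun f => ⟨fun x => f.1 (q • x), by
        have h : {x | f.1 x ≠ 1}.Finite := f.2
        refine (h.image (fun x => q⁻¹ • x)).subset ?_
        intro x hx
        exact ⟨q • x, hx, inv_smul_smul q x⟩⟩
      left_inv := fun f => by
        apply Subtype.ext
        funext x
        change f.1 (q⁻¹ • q • x) = f.1 x
        rw [inv_smul_smul]
      right_inv := fun f => by
        apply Subtype.ext
        funext x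
        change f.1 (q • q⁻¹ • x) = f.1 x
        rw [smul_inv_smul]
      map_mul' := fun _ _ => rfl }
  map_one' := by
    apply MulEquiv.ext
    intro f
    apply Subtype.ext
    funext x
    change f.1 ((1 : Q)⁻¹ • x) = f.1 x
    rw [inv_one, one_smul]
  map_mul' a b := by
    apply MulEquiv.ext
    intro f
    apply Subtype.ext
    funext x
    change f.1 ((a * b)⁻¹ • x) = f.1 (b⁻¹ • a⁻¹ • x)
    rw [mul_inv_rev, mul_smul]

/-- The permutational restricted wreath product `H ≀_Ω Q`: the semidirect product of the restricted
direct power of `H` and `Q`. -/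
abbrev Wrp : Type _ := FS Ω H ⋊[sh Q Ω H] Q

end Pool.Agent.H92.Wr
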